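import Mathlib
import Pool.Agent.V11219.TropRat

namespace Pool.Agent.Results.MP_28d764_an.NonConvergent

open Filter Topology

/-- For some positive parameters `α, γ, δ, C, D` the recurrence
`x_{n+1} = (α + x_n + γ x_{n-1} + δ x_{n-2}) / (x_n + C x_{n-1} + D x_{n-2})`
has a bounded solution with positive initial values which converges neither to a constant (in
particular not to the equilibrium) nor to any periodic sequence (in particular to no periodic
solution).  The sequence is indexed from `0`: `x 0 = x_{-2}`, `x 1 = x_{-1}`, `x 2 = x_0`. -/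
theorem result :
    ∃ α γ δ C D : ℝ, 0 < α ∧ 0 < γ ∧ 0 < δ ∧ 0 < C ∧ 0 < D ∧
      ∃ x : ℕ → ℝ, (∀ n, 0 < x n) ∧
        (∀ n, x (n + 3) = (α + x (n + 2) + γ * x (n + 1) + δ * x n) /
          (x (n + 2) + C * x (n + 1) + D * x n)) ∧
        (∃ M, ∀ n, x n ≤ M) ∧
        (∀ c : ℝ, ¬ Tendsto x atTop (𝓝 c)) ∧
        ∀ (p : ℕ → ℝ) (k : ℕ), 0 < k → (∀ n, p (n + k) = p n) →
          ¬ Tendsto (fun n => x n - p n) atTop (𝓝 0) := by
  obtain ⟨x, h1, h2, h3, h4⟩ := V11219.TropRat.famA (L := 20000) (γ := 1)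
    (D := Real.exp (20000 * (-20))) le_rfl zero_le_one le_rfl (Real.exp_pos _).le le_rfl
  refine ⟨_, 1, _, _, _, Real.exp_pos _, one_pos, Real.exp_pos _, Real.exp_pos _,
    Real.exp_pos _, x, h1, h2, h3, ?_, h4⟩
  intro c hc
  apply h4 (fun _ => c) 1 one_pos (fun _ => rfl)
  have := hc.sub_const c
  simpa using this

end Pool.Agent.Results.MP_28d764_an.NonConvergent
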